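import Pool.Agent.X10.SP.Lin2

set_option autoImplicit false

/-! # Simultaneously composite values of `c log X log log X` linear forms: arbitrary intervals (helper10) -/

namespace Pool.Agent.X10.SP.Lin

open Finset Filter

open scoped Classical in
/-- among `Y` consecutive intervals of length `Y` there is one in which no form takes a tiny value -/
lemma exists_free_interval (Y : ℕ) (hY : 0 < Y) {k : ℕ} (a b : Fin k → ℤ) (ha : ∀ i, a i ≠ 0) (M : ℤ) (t : ℝ)
    (ht0 : 0 ≤ t) (ht : (k : ℝ) * (2 * t + 1) < Y) :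
    ∃ j : ℕ, j < Y ∧ ∀ n ∈ Ioc (M + j * Y) (M + j * Y + Y), ∀ i, t < ((a i * n + b i).natAbs : ℝ) := by
  by_contra hcon
  push Not at hcon
  have hcon' : ∀ j : Fin Y, ∃ n ∈ Ioc (M + (j : ℕ) * (Y : ℤ)) (M + (j : ℕ) * (Y : ℤ) + Y), ∃ i,
      ((a i * n + b i).natAbs : ℝ) ≤ t := fun j => by
    obtain ⟨n, hn, i, hi⟩ := hcon j j.2
    exact ⟨n, hn, i, hi⟩
  choose n hn i hi using hcon'
  obtain ⟨T, hT⟩ : ∃ T : ℕ, T = ⌊t⌋₊ := ⟨_, rfl⟩
  have hTt : (T : ℝ) ≤ t := by rw [hT]; exact Nat.floor_le ht0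
  have hmem : ∀ j : Fin Y, a (i j) * n j + b (i j) ∈ Icc (-(T : ℤ)) T := by
    intro j
    have h1 : (a (i j) * n j + b (i j)).natAbs ≤ T := by
      rw [hT]
      exact Nat.le_floor (hi j)
    rw [mem_Icc]
    omega
  have hcard : Y ≤ k * (2 * T + 1) := by
    have h1 : (univ : Finset (Fin Y)).card ≤ ((univ : Finset (Fin k)) ×ˢ Icc (-(T : ℤ)) T).card := by
      apply card_le_card_of_injOn (fun j => (i j, a (i j) * n j + b (i j)))
      · intro j _
        simp only [coe_product, Set.mem_prod, mem_coe]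
        exact ⟨mem_univ _, hmem j⟩
      · intro j _ l _ hjl
        simp only [Prod.mk.injEq] at hjl
        obtain ⟨h2, h3⟩ := hjl
        rw [h2] at h3
        have h4 : n j = n l := by
          have : a (i l) * n j = a (i l) * n l := by linarith
          exact mul_left_cancel₀ (ha _) this
        have h5 := mem_Ioc.1 (hn j)
        have h6 := mem_Ioc.1 (hn l)
        rw [h4] at h5
        have hYz : (0 : ℤ) < Y := by exact_mod_cast hY
        have h7 : ((j : ℕ) : ℤ) < ((l : ℕ) : ℤ) + 1 := by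
          by_contra h
          push Not at h
          nlinarith [h5.1, h6.2]
        have h8 : ((l : ℕ) : ℤ) < ((j : ℕ) : ℤ) + 1 := by
          by_contra h
          push Not at h
          nlinarith [h6.1, h5.2]
        exact Fin.ext (by omega)
    rw [card_product, card_univ, card_univ, Fintype.card_fin, Fintype.card_fin, Int.card_Icc] at h1
    have h2 : ((T : ℤ) + 1 - -(T : ℤ)).toNat = 2 * T + 1 := by omega
    rwa [h2] at h1
  have h1 : (Y : ℝ) ≤ k * (2 * T + 1) := by exact_mod_cast hcard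
  have h2 : (k : ℝ) * (2 * T + 1) ≤ k * (2 * t + 1) := by gcongr
  linarith

/-- **Simultaneously composite values of linear forms.** -/
theorem lin : ∃ c : ℝ, 0 < c ∧ ∃ X₀ : ℕ, ∀ X : ℕ, X₀ ≤ X → ∀ (k : ℕ) (a b : Fin k → ℤ),
    (∀ i, a i ≠ 0) → (∀ i, (|a i| : ℝ) ≤ Real.exp (Real.log X ^ 2)) →
    (∀ i, (|b i| : ℝ) ≤ Real.exp (Real.log X ^ 2)) →
    ∑ i, ((a i).natAbs : ℝ) / (Nat.totient (a i).natAbs : ℝ) ≤ c * (Real.log X * Real.log (Real.log X)) →
    ∀ M : ℤ, ∃ n : ℤ, M < n ∧ n ≤ M + X ∧ ∀ i, ¬ (a i * n + b i).natAbs.Prime := by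
  obtain ⟨c₁, hc₁, X₁, hcore⟩ := core
  refine ⟨c₁ / 8, by positivity, ?_⟩
  have tlog : Tendsto (fun n : ℕ => Real.log (n : ℝ)) atTop atTop := Real.tendsto_log_atTop.comp tendsto_natCast_atTop_atTop
  have tloglog : Tendsto (fun n : ℕ => Real.log (Real.log (n : ℝ))) atTop atTop := Real.tendsto_log_atTop.comp tlog
  have tpow : ∀ a : ℝ, 0 < a → Tendsto (fun n : ℕ => (n : ℝ) ^ a) atTop atTop := fun a ha =>
    (tendsto_rpow_atTop ha).comp tendsto_natCast_atTop_atTop
  have hsm : ∀ᶠ n : ℕ in atTop, c₁ * (Real.log (n : ℝ)) ^ 2 ≤ (n : ℝ) ^ (1 / 10 : ℝ) := by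
    have h0 : (fun x : ℝ => Real.log x ^ 2) =o[atTop] fun x : ℝ => x ^ (1 / 10 : ℝ) := by
      have h1 := isLittleO_log_rpow_rpow_atTop (s := 1 / 10) 2 (by norm_num)
      refine h1.congr' (Eventually.of_forall fun x => ?_) (Eventually.of_forall fun _ => rfl)
      exact Real.rpow_two _
    have h := h0.bound (show (0 : ℝ) < 1 / c₁ by positivity)
    filter_upwards [tendsto_natCast_atTop_atTop.eventually h] with n hn
    rw [Real.norm_eq_abs, Real.norm_eq_abs, abs_of_nonneg (by positivity : (0 : ℝ) ≤ (n : ℝ) ^ (1 / 10 : ℝ)),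
      abs_of_nonneg (by positivity : (0 : ℝ) ≤ Real.log n ^ 2), one_div, ← div_eq_inv_mul, le_div_iff₀ hc₁] at hn
    linarith
  obtain ⟨Y₀, hY₀⟩ := eventually_atTop.1 ((tlog.eventually_ge_atTop 1000).and
    ((tloglog.eventually_ge_atTop 1).and (((tpow (1 / 10) (by norm_num)).eventually_ge_atTop 2).and hsm)))
  refine ⟨(max (max Y₀ X₁) 2) ^ 2, fun X hX k a b ha haX hbX hw M => ?_⟩
  obtain ⟨Y, hY⟩ : ∃ Y : ℕ, Y = Nat.sqrt X := ⟨_, rfl⟩
  have hY1 : max (max Y₀ X₁) 2 ≤ Y := by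
    rw [hY]
    exact Nat.le_sqrt'.2 hX
  have hYX : Y * Y ≤ X := by rw [hY]; exact Nat.sqrt_le X
  have hXY : X < (Y + 1) * (Y + 1) := by rw [hY]; exact Nat.lt_succ_sqrt X
  obtain ⟨b1, b2, b3, b4⟩ := hY₀ Y (by omega)
  have hYpos : 0 < Y := by omega
  have hYr : (0 : ℝ) < Y := by exact_mod_cast hYpos
  have hXr : (0 : ℝ) < X := by
    have : 0 < X := by nlinarith
    exact_mod_cast this
  obtain ⟨L, hL⟩ : ∃ L, L = Real.log (Y : ℝ) := ⟨_, rfl⟩
  rw [← hL] at b1 b2 b4
  have hLX : Real.log X ≤ 21 / 10 * L := by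
    have h1 : (X : ℝ) ≤ (2 * Y) ^ 2 := by
      have : X ≤ (2 * Y) ^ 2 := by nlinarith
      exact_mod_cast this
    have h2 := Real.log_le_log hXr h1
    rw [Real.log_pow, Real.log_mul (by norm_num) hYr.ne', ← hL] at h2
    push_cast at h2
    have := Real.log_two_lt_d9
    linarith
  have hLX0 : 0 ≤ Real.log X := Real.log_natCast_nonneg _
  have hLX2 : Real.log X ^ 2 ≤ 5 * L ^ 2 := by nlinarith
  have hllX : Real.log (Real.log X) ≤ 2 * Real.log L := by
    have h1 : L ≤ Real.log X := by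
      rw [hL]
      apply Real.log_le_log hYr
      exact_mod_cast (by nlinarith : Y ≤ X)
    have h2 : Real.log (Real.log X) ≤ Real.log (21 / 10 * L) := Real.log_le_log (by linarith) hLX
    have h3 : Real.log (21 / 10 * L) ≤ Real.log (L * L) := Real.log_le_log (by nlinarith) (by nlinarith)
    rw [Real.log_mul (x := L) (y := L) (by linarith) (by linarith)] at h3
    linarith
  have hww : c₁ / 8 * (Real.log X * Real.log (Real.log X)) ≤ c₁ * (L * Real.log L) := by
    have h1 : Real.log X * Real.log (Real.log X) ≤ (21 / 10 * L) * (2 * Real.log L) := by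
      calc Real.log X * Real.log (Real.log X) ≤ Real.log X * (2 * Real.log L) :=
            mul_le_mul_of_nonneg_left hllX hLX0
        _ ≤ _ := mul_le_mul_of_nonneg_right hLX (by linarith)
    have h2 : 0 ≤ L * Real.log L := by nlinarith
    nlinarith
  have hk : (k : ℝ) ≤ c₁ * (L * Real.log L) := by
    refine le_trans ?_ (hw.trans hww)
    calc (k : ℝ) = ∑ _i : Fin k, (1 : ℝ) := by simp
      _ ≤ _ := by
          refine sum_le_sum fun i _ => ?_
          have h1 : 0 < (a i).natAbs := Int.natAbs_pos.2 (ha i)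
          have h2 : (0 : ℝ) < Nat.totient (a i).natAbs := by exact_mod_cast Nat.totient_pos.2 h1
          rw [le_div_iff₀ h2, one_mul]
          exact_mod_cast Nat.totient_le _
  have hk2 : (k : ℝ) ≤ (Y : ℝ) ^ (1 / 10 : ℝ) := by
    refine hk.trans (le_trans ?_ b4)
    have h1 : Real.log L ≤ L := (Real.log_le_sub_one_of_pos (by linarith)).trans (by linarith)
    have : L * Real.log L ≤ L ^ 2 := by nlinarith
    exact mul_le_mul_of_nonneg_left this hc₁.le
  obtain ⟨t, ht⟩ : ∃ t : ℝ, t = (Y : ℝ) ^ (1 / 10 : ℝ) := ⟨_, rfl⟩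
  rw [← ht] at b3 hk2
  have ht4 : t ^ 4 ≤ Y := by
    rw [ht, ← Real.rpow_natCast, ← Real.rpow_mul hYr.le]
    calc (Y : ℝ) ^ (1 / 10 * ((4 : ℕ) : ℝ)) ≤ (Y : ℝ) ^ (1 : ℝ) := by
          apply Real.rpow_le_rpow_of_exponent_le
          · exact_mod_cast hYpos
          · push_cast
            norm_num
      _ = Y := Real.rpow_one _
  obtain ⟨j, hj, hfree⟩ := exists_free_interval Y hYpos a b ha M t (by linarith) (by
    have h1 : (k : ℝ) * (2 * t + 1) ≤ t * (2 * t + 1) := mul_le_mul_of_nonneg_right hk2 (by linarith)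
    have h2 : 4 ≤ t ^ 2 := by nlinarith
    have h3 : t ^ 2 * 4 ≤ t ^ 4 := by
      have : t ^ 4 = t ^ 2 * t ^ 2 := by ring
      rw [this]
      exact mul_le_mul_of_nonneg_left h2 (sq_nonneg t)
    nlinarith)
  have hcast : ∀ z : ℤ, ((z.natAbs : ℕ) : ℝ) = |(z : ℝ)| := fun z => by
    rw [Nat.cast_natAbs, Int.cast_abs]
  obtain ⟨n, hn, hn2⟩ := hcore Y (by omega) (Fin k) univ a b (fun i _ => ha i)
    (fun i _ => by
      rw [hcast, ← hL]
      exact (haX i).trans (Real.exp_le_exp.2 hLX2))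
    (fun i _ => by
      rw [hcast, ← hL]
      exact (hbX i).trans (Real.exp_le_exp.2 hLX2))
    (by rw [← hL]; exact hw.trans hww) (M + j * Y)
    (fun n hn i _ => by rw [← ht]; exact hfree n hn i)
  rw [mem_Ioc] at hn
  refine ⟨n, ?_, ?_, fun i => hn2 i (mem_univ i)⟩
  · have : (0 : ℤ) ≤ (j : ℤ) * Y := by positivity
    linarith [hn.1]
  · have h1 : (j : ℤ) + 1 ≤ Y := by exact_mod_cast hj
    have h2 : ((Y : ℤ)) * Y ≤ X := by exact_mod_cast hYX
    have h3 : ((j : ℤ) + 1) * Y ≤ Y * Y := mul_le_mul_of_nonneg_right h1 (by positivity)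
    have h4 : ((j : ℤ) + 1) * Y = j * Y + Y := by ring
    have h5 := hn.2
    linarith

end Pool.Agent.X10.SP.Lin
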