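import Pool.Agent.X10.SP.V
import Pool.Agent.H143R2.ACFinal
import Pool.Agent.H647R2.ACNT
import Pool.Agent.H378R2.PS.Main

set_option autoImplicit false

/-! # Prime-free differences for arbitrary sets of `c log X log log X` positions (helper10)

Greedy sieving by the primes up to `log X / 100` (`Pool.Agent.H647R2.ACNT.nt`), then the covering theorem with many
exceptional primes. -/

namespace Pool.Agent.X10.SP

open Finset Filter

lemma card_primeFactors_le_log {m : ℕ} : m.primeFactors.card ≤ Nat.log 2 m := by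
  rcases Nat.eq_zero_or_pos m with h | h
  · rw [h]; simp
  · apply Nat.le_log_of_pow_le (by norm_num)
    calc 2 ^ m.primeFactors.card ≤ ∏ p ∈ m.primeFactors, p := by
          rw [← prod_const]
          exact prod_le_prod' fun p hp => (Nat.prime_of_mem_primeFactors hp).two_le
      _ ≤ m := Nat.le_of_dvd h (Nat.prod_primeFactors_dvd m)

theorem arb : ∃ c : ℝ, 0 < c ∧ ∃ X₀ : ℕ, ∀ X : ℕ, X₀ ≤ X → ∀ (M : ℕ) (A : Finset ℕ), (∀ a ∈ A, a ≤ X ^ 3) →
    (∀ a ∈ A, a + X ≤ M ∨ M + X ≤ a) → (A.card : ℝ) ≤ c * (Real.log X * Real.log (Real.log X)) →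
    ∃ n ∈ Ioc M (M + X), ∀ a ∈ A, ∀ p : ℕ, p.Prime → p + a ≠ n := by
  classical
  obtain ⟨c₁, hc₁, X₁, hcov⟩ := covering6
  obtain ⟨CN, hCN, _, _, _, _, _, hgreedy⟩ := Pool.Agent.H647R2.ACNT.nt
  obtain ⟨c₂, hc₂⟩ : ∃ c₂ : ℝ, c₂ = min c₁ 1 := ⟨_, rfl⟩
  have hc20 : 0 < c₂ := by rw [hc₂]; exact lt_min hc₁ one_pos
  have hc21 : c₂ ≤ c₁ := by rw [hc₂]; exact min_le_left _ _
  have hc22 : c₂ ≤ 1 := by rw [hc₂]; exact min_le_right _ _
  refine ⟨c₂ / 2, by positivity, ?_⟩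
  have tlog : Tendsto (fun n : ℕ => Real.log (n : ℝ)) atTop atTop := Real.tendsto_log_atTop.comp tendsto_natCast_atTop_atTop
  have tloglog : Tendsto (fun n : ℕ => Real.log (Real.log (n : ℝ))) atTop atTop := Real.tendsto_log_atTop.comp tlog
  have tpow : ∀ a : ℝ, 0 < a → Tendsto (fun n : ℕ => (n : ℝ) ^ a) atTop atTop := fun a ha =>
    (tendsto_rpow_atTop ha).comp tendsto_natCast_atTop_atTop
  obtain ⟨X₂, hX₂⟩ := eventually_atTop.1 ((tlog.eventually_ge_atTop 1000).and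
    ((tloglog.eventually_ge_atTop (4 * Real.log 200 + 1)).and ((tpow (1 / 10) (by norm_num)).eventually_ge_atTop 2)))
  refine ⟨max (max X₂ ⌈X₁⌉₊) 2, fun X hX M A hA1 hA2 hAc => ?_⟩
  obtain ⟨a1, a2, a3⟩ := hX₂ X (by omega)
  have hXX1 : X₁ ≤ X := by
    have : (⌈X₁⌉₊ : ℝ) ≤ X := by exact_mod_cast (by omega : ⌈X₁⌉₊ ≤ X)
    exact (Nat.le_ceil _).trans this
  have hX2 : 2 ≤ X := by omega
  have hX0 : (0 : ℝ) < X := by exact_mod_cast (by omega : 0 < X)
  obtain ⟨L, hL⟩ : ∃ L, L = Real.log (X : ℝ) := ⟨_, rfl⟩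
  rw [← hL] at a1 a2 hAc
  have hL0 : 0 < L := by linarith
  -- greedy sieving
  obtain ⟨H, hH⟩ : ∃ H : ℕ, H = ⌊L / 100⌋₊ := ⟨_, rfl⟩
  have hH1 : (H : ℝ) ≤ L / 100 := by rw [hH]; exact Nat.floor_le (by positivity)
  have hH2 : L / 200 ≤ H := by
    have := Nat.lt_floor_add_one (L / 100)
    rw [← hH] at this
    linarith
  have hH3 : 2 ≤ H := by
    have : (2 : ℝ) ≤ H := by linarith
    exact_mod_cast this
  have hlogH : Real.log L / 2 ≤ Real.log H := by
    have h1 : Real.log (L / 200) ≤ Real.log H := Real.log_le_log (by positivity) hH2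
    rw [Real.log_div hL0.ne' (by norm_num)] at h1
    have h0 : 0 ≤ Real.log 200 := Real.log_nonneg (by norm_num)
    linarith
  have hll : 0 < Real.log L := by
    have : 0 ≤ Real.log 200 := Real.log_nonneg (by norm_num)
    linarith
  obtain ⟨b, hb, hgr⟩ := hgreedy H A hH3
  obtain ⟨A₂, hA₂⟩ : ∃ A₂ : Finset ℕ, A₂ = A.filter (fun a : ℕ => IsCoprime ((b : ℤ) - (a : ℤ)) (primorial H : ℤ)) :=
    ⟨_, rfl⟩
  rw [← hA₂] at hgr
  have hA₂c : (A₂.card : ℝ) ≤ c₂ * L := by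
    have h1 : (A₂.card : ℝ) * (Real.log L / 2) ≤ (c₂ * L) * (Real.log L / 2) := by
      calc (A₂.card : ℝ) * (Real.log L / 2) ≤ A₂.card * Real.log H :=
            mul_le_mul_of_nonneg_left hlogH (Nat.cast_nonneg _)
        _ ≤ A.card := hgr
        _ ≤ c₂ / 2 * (L * Real.log L) := hAc
        _ = _ := by ring
    exact le_of_mul_le_mul_right h1 (by positivity)
  have hA₂L : (A₂.card : ℝ) ≤ L := hA₂c.trans (by nlinarith)
  have hA₂A : A₂ ⊆ A := by rw [hA₂]; exact filter_subset _ _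
  -- the modulus
  obtain ⟨P, hP⟩ : ∃ P : ℕ, P = primorial H := ⟨_, rfl⟩
  rw [← hP] at hb
  have hP0 : 0 < P := by rw [hP]; exact primorial_pos H
  have hPb : (P : ℝ) ≤ (X : ℝ) ^ (1 / 50 : ℝ) := by
    rw [hP]
    exact Pool.Agent.H143R2.ACF.primorial_bound (by omega) (by rw [← hL]; exact hH1)
  -- the exceptional primes
  obtain ⟨B, hB⟩ : ∃ B : Finset ℕ, B = ((A₂ ×ˢ A₂).filter (fun v => v.1 ≠ v.2)).biUnion
    (fun v => ((v.1 : ℤ) - (v.2 : ℤ)).natAbs.primeFactors) := ⟨_, rfl⟩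
  have hBc : (B.card : ℝ) ≤ L ^ 5 := by
    have h1 : B.card ≤ (A₂.card * A₂.card) * Nat.log 2 (X ^ 3) := by
      rw [hB]
      refine card_biUnion_le.trans ?_
      calc ∑ v ∈ (A₂ ×ˢ A₂).filter (fun v => v.1 ≠ v.2), (((v.1 : ℤ) - (v.2 : ℤ)).natAbs.primeFactors).card ≤
            ∑ v ∈ (A₂ ×ˢ A₂).filter (fun v => v.1 ≠ v.2), Nat.log 2 (X ^ 3) := by
            apply sum_le_sum
            intro v hv
            rw [mem_filter, mem_product] at hv
            refine card_primeFactors_le_log.trans (Nat.log_mono_right ?_)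
            have h2 := hA1 _ (hA₂A hv.1.1)
            have h3 := hA1 _ (hA₂A hv.1.2)
            omega
        _ = ((A₂ ×ˢ A₂).filter (fun v => v.1 ≠ v.2)).card * Nat.log 2 (X ^ 3) := by
            rw [sum_const, smul_eq_mul]
        _ ≤ _ := by
            apply Nat.mul_le_mul_right
            refine (card_le_card (filter_subset _ _)).trans ?_
            rw [card_product]
    have h2 : (Nat.log 2 (X ^ 3) : ℝ) ≤ 5 * L := by
      have h3 : (Nat.log 2 (X ^ 3) : ℝ) * Real.log 2 ≤ Real.log ((X : ℝ) ^ 3) := by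
        rw [← Real.log_pow]
        apply Real.log_le_log (by positivity)
        exact_mod_cast Nat.pow_log_le_self 2 (by positivity)
      rw [Real.log_pow, ← hL] at h3
      push_cast at h3
      have h4 := Real.log_two_gt_d9
      have h5 : (0 : ℝ) ≤ (Nat.log 2 (X ^ 3) : ℝ) := Nat.cast_nonneg _
      nlinarith
    calc (B.card : ℝ) ≤ ((A₂.card * A₂.card * Nat.log 2 (X ^ 3) : ℕ) : ℝ) := by exact_mod_cast h1
      _ = (A₂.card : ℝ) * A₂.card * Nat.log 2 (X ^ 3) := by push_cast; ring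
      _ ≤ L * L * (5 * L) := by gcongr
      _ ≤ L ^ 5 := by nlinarith [pow_pos hL0 3, pow_pos hL0 4]
  -- the covering theorem
  obtain ⟨x, hx, hxk⟩ := hcov X hXX1 B (by rw [← hL]; exact hBc) A₂ (by
      rw [Fintype.card_coe, ← hL]
      exact hA₂c.trans (mul_le_mul_of_nonneg_right hc21 hL0.le))
    (fun _ k => ((k : ℕ) : ℤ)) (by
      intro p hp _ _ hpB k l hkl hdvd
      apply hpB
      rw [hB, mem_biUnion]
      have hne : (k : ℕ) ≠ (l : ℕ) := fun h => hkl (Subtype.ext h)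
      refine ⟨((k : ℕ), (l : ℕ)), mem_filter.2 ⟨mem_product.2 ⟨k.2, l.2⟩, hne⟩, ?_⟩
      rw [Nat.mem_primeFactors]
      refine ⟨hp, Int.natCast_dvd.1 hdvd, ?_⟩
      simp only
      omega)
    ((Ioc (M : ℤ) ((M : ℤ) + X)).filter (fun x => (P : ℤ) ∣ x - b)) (X / P) 1 (by
      rw [le_div_iff₀ (by exact_mod_cast hP0)]
      calc (X : ℝ) ^ (1 / 2 : ℝ) * P ≤ (X : ℝ) ^ (1 / 2 : ℝ) * (X : ℝ) ^ (1 / 50 : ℝ) := by gcongr
        _ = (X : ℝ) ^ (1 / 2 + 1 / 50 : ℝ) := by rw [Real.rpow_add hX0]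
        _ ≤ (X : ℝ) ^ (1 : ℝ) := Real.rpow_le_rpow_of_exponent_le (by exact_mod_cast (by omega : 1 ≤ X)) (by norm_num)
        _ = X := Real.rpow_one _) (by norm_num) (by linarith) (by
      intro q hq _ hqp r
      have hq0 : 0 < q := Nat.pos_of_ne_zero hq.ne_zero
      have hcop : Nat.Coprime P q := by
        rw [Nat.coprime_iff_gcd_eq_one]
        by_contra hcon
        obtain ⟨p, hp, hpd⟩ := Nat.exists_prime_and_dvd hcon
        have h1 : p ∣ P := hpd.trans (Nat.gcd_dvd_left _ _)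
        have h2 : p ∣ q := hpd.trans (Nat.gcd_dvd_right _ _)
        rw [hP] at h1
        have h3 := Pool.Agent.H143R2.ACF.prime_dvd_primorial hp h1
        have h4 := (hqp p (Nat.mem_primeFactors.2 ⟨hp, h2, hq0.ne'⟩)).1
        rw [← hL] at h4
        have h5 : (p : ℝ) ≤ H := by exact_mod_cast h3
        have h6 : L ≤ L ^ 6 := le_self_pow₀ (by linarith) (by norm_num)
        linarith
      have h1 := Pool.Agent.H378R2.PS.count_two (M : ℤ) ((M : ℤ) + X) (by omega) P q hP0 hq0 hcop b r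
      push_cast at h1
      rw [add_sub_cancel_left] at h1
      exact h1)
  rw [mem_filter, mem_Ioc] at hx
  obtain ⟨⟨hx1, hx2⟩, hx3⟩ := hx
  obtain ⟨n, rfl⟩ := Int.eq_ofNat_of_zero_le (show 0 ≤ x by omega)
  refine ⟨n, mem_Ioc.2 ⟨by omega, by omega⟩, fun a ha p hp hpa => ?_⟩
  have hXn : a + X ≤ n := by
    rcases hA2 a ha with h | h
    · omega
    · have := hp.pos
      omega
  have hbig : (X : ℝ) ≤ p := by
    have : X ≤ p := by omega
    exact_mod_cast this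
  by_cases h : a ∈ A₂
  · obtain ⟨q, hq, _, hqX, _, hqd⟩ := hxk ⟨a, h⟩
    have h1 : (q : ℤ) ∣ (p : ℤ) := by
      have : ((n : ℕ) : ℤ) - ((a : ℕ) : ℤ) = p := by omega
      rw [← this]
      exact hqd
    have h2 : q = p := (Nat.prime_dvd_prime_iff_eq hq hp).1 (by exact_mod_cast h1)
    rw [h2] at hqX
    have h3 : (X : ℝ) ^ (1 / 10 : ℝ) < (X : ℝ) ^ (1 : ℝ) :=
      Real.rpow_lt_rpow_of_exponent_lt (by exact_mod_cast (by omega : 1 < X)) (by norm_num)
    rw [Real.rpow_one] at h3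
    linarith
  · rw [hA₂, mem_filter, not_and] at h
    have h1 := h ha
    rw [← hP, Int.isCoprime_iff_gcd_eq_one] at h1
    obtain ⟨q, hq, hqd⟩ := Nat.exists_prime_and_dvd h1
    have h2 : (q : ℤ) ∣ (b : ℤ) - a := (Int.natCast_dvd_natCast.2 hqd).trans (Int.gcd_dvd_left _ _)
    have h3 : (q : ℤ) ∣ (P : ℤ) := (Int.natCast_dvd_natCast.2 hqd).trans (Int.gcd_dvd_right _ _)
    have h4 : (q : ℤ) ∣ (p : ℤ) := by
      have h5 : (p : ℤ) = (((n : ℕ) : ℤ) - b) + (b - a) := by omega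
      rw [h5]
      exact dvd_add (h3.trans hx3) h2
    have h5 : q = p := (Nat.prime_dvd_prime_iff_eq hq hp).1 (by exact_mod_cast h4)
    have h6 : q ≤ H := by
      apply Pool.Agent.H143R2.ACF.prime_dvd_primorial hq
      rw [← hP]
      exact_mod_cast h3
    have h7 : (q : ℝ) ≤ H := by exact_mod_cast h6
    rw [h5] at h7
    have h8 : L ≤ X := by
      rw [hL]
      exact (Real.log_le_sub_one_of_pos hX0).trans (by linarith)
    linarith

end Pool.Agent.X10.SP
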