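import Pool.Agent.X10.SP.Arb

set_option autoImplicit false

namespace Pool.Agent.X10.SP

open Finset Filter

/-- a free interval -/
lemma exists_free (A : Finset ℕ) (X m : ℕ) : ∃ i ≤ A.card, ∀ a ∈ A, a + X ≤ m + 2 * i * X ∨ m + 2 * i * X + X ≤ a := by
  classical
  by_contra hcon
  push Not at hcon
  have h1 : ∀ i : ℕ, ∃ a : ℕ, i ≤ A.card → (a ∈ A ∧ m + 2 * i * X < a + X ∧ a < m + 2 * i * X + X) := by
    intro i
    by_cases hi : i ≤ A.card
    · obtain ⟨a, ha, h⟩ := hcon i hi
      exact ⟨a, fun _ => ⟨ha, h⟩⟩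
    · exact ⟨0, fun h => absurd h hi⟩
  choose g hg using h1
  have h2 : (range (A.card + 1)).card ≤ A.card := by
    apply card_le_card_of_injOn g
    · intro i hi
      rw [mem_coe, mem_range] at hi
      exact (hg i (by omega)).1
    · intro i hi j hj hij
      rw [mem_coe, mem_range] at hi hj
      obtain ⟨_, g1, g2⟩ := hg i (by omega)
      obtain ⟨_, g3, g4⟩ := hg j (by omega)
      rw [hij] at g1 g2
      rcases lt_trichotomy i j with h | h | h
      · exfalso
        have h5 : (2 * i + 2) * X ≤ 2 * j * X := Nat.mul_le_mul_right _ (by omega)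
        have h6 : (2 * i + 2) * X = 2 * i * X + 2 * X := by ring
        omega
      · exact h
      · exfalso
        have h5 : (2 * j + 2) * X ≤ 2 * i * X := Nat.mul_le_mul_right _ (by omega)
        have h6 : (2 * j + 2) * X = 2 * j * X + 2 * X := by ring
        omega
  rw [card_range] at h2
  omega

theorem places : ∃ c : ℝ, 0 < c ∧ ∃ N₀ : ℕ, ∀ N : ℕ, N₀ ≤ N → ∀ (T : Set ℕ) (y : ℕ),
    ((T ∩ Set.Iic N).ncard : ℝ) * y ≤ c * (Real.log N * Real.log (Real.log N)) →
    ∃ n : ℕ, N < 2 * n ∧ n ≤ N ∧ ∀ t ∈ T, ∀ p : ℕ, p.Prime → p + t ≤ n → p + t + y ≤ n := by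
  classical
  obtain ⟨c₀, hc₀, X₀, H⟩ := arb
  obtain ⟨c₁, hc₁⟩ : ∃ c₁ : ℝ, c₁ = min c₀ 1 := ⟨_, rfl⟩
  have hc10 : 0 < c₁ := by rw [hc₁]; exact lt_min hc₀ one_pos
  have hc11 : c₁ ≤ c₀ := by rw [hc₁]; exact min_le_left _ _
  have hc12 : c₁ ≤ 1 := by rw [hc₁]; exact min_le_right _ _
  refine ⟨c₁ / 8, by positivity, ?_⟩
  have tlog : Tendsto (fun n : ℕ => Real.log (n : ℝ)) atTop atTop := Real.tendsto_log_atTop.comp tendsto_natCast_atTop_atTop
  have tloglog : Tendsto (fun n : ℕ => Real.log (Real.log (n : ℝ))) atTop atTop := Real.tendsto_log_atTop.comp tlog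
  have tsq : ∀ᶠ N : ℕ in atTop, 16 * Real.log N ^ 2 + 16 ≤ √(N : ℝ) := by
    have h1 : (fun x : ℝ => Real.log x ^ 2) =o[atTop] (fun x : ℝ => x ^ (1 / 2 : ℝ)) := by
      have := isLittleO_log_rpow_rpow_atTop (2 : ℝ) (show (0 : ℝ) < 1 / 2 by norm_num)
      simpa using this
    have h2 := h1.bound (show (0 : ℝ) < 1 / 32 by norm_num)
    filter_upwards [tendsto_natCast_atTop_atTop.eventually h2, eventually_ge_atTop 1024] with n hn hn2
    have hn2' : (1024 : ℝ) ≤ n := by exact_mod_cast hn2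
    have hl : 0 ≤ Real.log n := Real.log_nonneg (by linarith)
    rw [Real.norm_of_nonneg (by positivity), Real.norm_of_nonneg (by positivity), ← Real.sqrt_eq_rpow] at hn
    have h3 : (32 : ℝ) ≤ √(n : ℝ) := Real.le_sqrt_of_sq_le (by linarith)
    linarith
  obtain ⟨N₁, hN₁⟩ := eventually_atTop.1 ((tlog.eventually_ge_atTop 8).and ((tloglog.eventually_ge_atTop 8).and tsq))
  refine ⟨max N₁ ((X₀ + 4) ^ 2), fun N hN T y hy => ?_⟩
  obtain ⟨a1, a2, a3⟩ := hN₁ N (by omega)
  obtain ⟨X, hX⟩ : ∃ X : ℕ, X = Nat.sqrt N := ⟨_, rfl⟩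
  have hXN : X * X ≤ N := by rw [hX]; exact Nat.sqrt_le N
  have hNX : N < (X + 1) * (X + 1) := by rw [hX]; exact Nat.lt_succ_sqrt N
  have hX0 : X₀ + 4 ≤ X := by
    rw [hX, Nat.le_sqrt]
    have h1 : (X₀ + 4) ^ 2 ≤ N := (le_max_right _ _).trans hN
    rwa [sq] at h1
  have hN0 : (0 : ℝ) < N := by
    have h16 : 16 ≤ X * X := by nlinarith
    exact_mod_cast (by omega : 0 < N)
  have hXr : (0 : ℝ) < X := by exact_mod_cast (by omega : 0 < X)
  -- trivial case
  rcases Nat.eq_zero_or_pos y with hy0 | hy0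
  · subst hy0
    refine ⟨N, by have : 0 < N := by exact_mod_cast hN0
                  omega, le_rfl, fun t _ p _ h => by omega⟩
  obtain ⟨Tf, hTf⟩ : ∃ Tf : Finset ℕ, Tf = (range (N + 1)).filter (fun t => t ∈ T) := ⟨_, rfl⟩
  have hTfc : (T ∩ Set.Iic N).ncard = Tf.card := by
    rw [← Set.ncard_coe_finset]
    congr 1
    ext t
    rw [hTf, coe_filter, Set.mem_inter_iff, Set.mem_Iic]
    simp only [mem_range, Set.mem_ofPred_eq]
    constructor
    · rintro ⟨h1, h2⟩; exact ⟨by omega, h1⟩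
    · rintro ⟨h1, h2⟩; exact ⟨h2, by omega⟩
  rw [hTfc] at hy
  obtain ⟨A, hA⟩ : ∃ A : Finset ℕ, A = (Tf ×ˢ range y).image (fun v => v.1 + v.2) := ⟨_, rfl⟩
  have hAc : A.card ≤ Tf.card * y := by
    rw [hA]
    refine card_image_le.trans ?_
    rw [card_product, card_range]
  have hAr : (A.card : ℝ) ≤ c₁ / 8 * (Real.log N * Real.log (Real.log N)) := by
    refine le_trans ?_ hy
    exact_mod_cast hAc
  have hlogX : Real.log N / 4 ≤ Real.log X := by
    have h1 : (N : ℝ) ≤ (X : ℝ) ^ 4 := by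
      have h2 : (X + 1) * (X + 1) ≤ X ^ 4 := by
        have h3 : X + 1 ≤ X * X := by nlinarith
        calc (X + 1) * (X + 1) ≤ (X * X) * (X * X) := Nat.mul_le_mul h3 h3
          _ = X ^ 4 := by ring
      exact_mod_cast (hNX.le.trans h2)
    have h2 := Real.log_le_log hN0 h1
    rw [Real.log_pow] at h2
    push_cast at h2
    linarith
  have hlogX2 : Real.log (Real.log N) / 2 ≤ Real.log (Real.log X) := by
    have h1 : Real.log (Real.log N / 4) ≤ Real.log (Real.log X) := Real.log_le_log (by positivity) hlogX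
    rw [Real.log_div (by linarith) (by norm_num)] at h1
    have h2 : Real.log 4 ≤ 2 := by
      have h4 : (4 : ℝ) = 2 ^ 2 := by norm_num
      rw [h4, Real.log_pow]
      have := Real.log_two_lt_d9
      push_cast
      linarith
    linarith
  have hl1 : 0 ≤ Real.log N := by linarith
  have hl2 : 0 ≤ Real.log (Real.log N) := by linarith
  have hAX : (A.card : ℝ) ≤ c₀ * (Real.log X * Real.log (Real.log X)) := by
    refine hAr.trans ?_
    have h1 : Real.log N / 4 * (Real.log (Real.log N) / 2) ≤ Real.log X * Real.log (Real.log X) :=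
      mul_le_mul hlogX hlogX2 (by positivity) (by linarith)
    calc c₁ / 8 * (Real.log N * Real.log (Real.log N)) = c₁ * (Real.log N / 4 * (Real.log (Real.log N) / 2)) := by ring
      _ ≤ c₀ * (Real.log X * Real.log (Real.log X)) := mul_le_mul hc11 h1 (by positivity) hc₀.le
  -- few elements
  have hAsm : (A.card : ℝ) ≤ Real.log N ^ 2 := by
    refine hAr.trans ?_
    have h1 : Real.log (Real.log N) ≤ Real.log N := (Real.log_le_sub_one_of_pos (by linarith)).trans (by linarith)
    have h2 : Real.log N * Real.log (Real.log N) ≤ Real.log N * Real.log N := mul_le_mul_of_nonneg_left h1 hl1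
    nlinarith [mul_nonneg hl1 hl2]
  have hXs : (X : ℝ) ≤ √(N : ℝ) := by
    apply Real.le_sqrt_of_sq_le
    rw [sq]
    exact_mod_cast hXN
  have hss : √(N : ℝ) * √(N : ℝ) = N := Real.mul_self_sqrt hN0.le
  have hbig : 8 * ((A.card + 2) * X) ≤ N := by
    have h1 : (8 : ℝ) * ((A.card + 2) * X) ≤ N := by
      have h2 : (8 : ℝ) * (A.card + 2) ≤ √(N : ℝ) := by linarith
      calc (8 : ℝ) * ((A.card + 2) * X) = (8 * (A.card + 2)) * X := by ring
        _ ≤ √(N : ℝ) * √(N : ℝ) := mul_le_mul h2 hXs hXr.le (Real.sqrt_nonneg _)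
        _ = N := hss
    exact_mod_cast h1
  obtain ⟨i, hi, hfree⟩ := exists_free A X (N / 2 + 1)
  have hiX : 2 * i * X ≤ 2 * (A.card * X) := by
    calc 2 * i * X = 2 * (i * X) := by ring
      _ ≤ 2 * (A.card * X) := Nat.mul_le_mul_left _ (Nat.mul_le_mul_right _ hi)
  have hexp : 8 * ((A.card + 2) * X) = 8 * (A.card * X) + 16 * X := by ring
  have hyN : y ≤ N ∨ Tf = ∅ := by
    rcases Tf.eq_empty_or_nonempty with h | h
    · exact Or.inr h
    · left
      have h1 : 1 ≤ Tf.card := card_pos.2 h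
      have h2 : (y : ℝ) ≤ Real.log N ^ 2 := by
        have h3 : (y : ℝ) ≤ Tf.card * y := by
          have : (1 : ℝ) ≤ Tf.card := by exact_mod_cast h1
          nlinarith [Nat.cast_nonneg (α := ℝ) y]
        refine (h3.trans hy).trans ?_
        have h1 : Real.log (Real.log N) ≤ Real.log N := (Real.log_le_sub_one_of_pos (by linarith)).trans (by linarith)
        have h2 : Real.log N * Real.log (Real.log N) ≤ Real.log N * Real.log N := mul_le_mul_of_nonneg_left h1 hl1
        nlinarith [mul_nonneg hl1 hl2]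
      have h4 : √(N : ℝ) ≤ N := by
        rw [Real.sqrt_le_left hN0.le]
        have : (1 : ℝ) ≤ N := by
          have : 1 ≤ N := by exact_mod_cast hN0
          exact_mod_cast this
        nlinarith
      have h5 : (y : ℝ) ≤ N := by nlinarith
      exact_mod_cast h5
  obtain ⟨n, hn, hnp⟩ := H X (by omega) (N / 2 + 1 + 2 * i * X) A (by
      intro a ha
      rw [hA, mem_image] at ha
      obtain ⟨v, hv, rfl⟩ := ha
      rw [mem_product, mem_range] at hv
      rcases hyN with h | h
      · have h1 := hv.1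
        rw [hTf, mem_filter, mem_range] at h1
        have h2 : 2 * N ≤ X ^ 3 := by
          have h3 : 2 * ((X + 1) * (X + 1)) ≤ X ^ 3 := by
            have h4 : 4 ≤ X := by omega
            nlinarith [Nat.mul_le_mul h4 (le_refl (X * X)), Nat.mul_le_mul h4 (le_refl X)]
          omega
        show v.1 + v.2 ≤ X ^ 3
        omega
      · rw [h] at hv
        exact absurd hv.1 (notMem_empty _)) hfree hAX
  rw [mem_Ioc] at hn
  refine ⟨n, by omega, by omega, fun t ht p hp hpt => ?_⟩
  by_contra hcon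
  push Not at hcon
  have htN : t ≤ N := by omega
  refine hnp (n - p) ?_ p hp (by omega)
  rw [hA, mem_image]
  refine ⟨(t, n - p - t), ?_, by
    show t + (n - p - t) = n - p
    omega⟩
  rw [mem_product, mem_range, hTf, mem_filter, mem_range]
  exact ⟨⟨by show t < N + 1; omega, ht⟩, by show n - p - t < y; omega⟩

end Pool.Agent.X10.SP
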