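import Pool.Agent.X10.SP.Arb

set_option autoImplicit false

/-! # Simultaneously composite values of `c log X log log X` linear forms: sieving by small primes (helper10) -/

namespace Pool.Agent.X10.SP.Lin

open Finset Filter

open scoped Classical in
lemma lin_step {ι : Type} (I : Finset ι) (a b : ι → ℤ) (u : ι → ℝ) (hu : ∀ i, 0 ≤ u i) (q : ℕ) (hq : q.Prime) :
    ∃ r : ℕ, ∑ i ∈ I, (if ¬ ((q : ℤ) ∣ a i) → ¬ ((q : ℤ) ∣ a i * r + b i) then u i else 0) ≤
      ∑ i ∈ I, u i * (if (q : ℤ) ∣ a i then 1 else 1 - 1 / (q : ℝ)) := by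
  have hq0 : (0 : ℝ) < q := by exact_mod_cast hq.pos
  by_contra hcon
  push Not at hcon
  have h1 : ∑ r ∈ range q, ∑ i ∈ I, u i * (if (q : ℤ) ∣ a i then 1 else 1 - 1 / (q : ℝ)) <
      ∑ r ∈ range q, ∑ i ∈ I, (if ¬ ((q : ℤ) ∣ a i) → ¬ ((q : ℤ) ∣ a i * r + b i) then u i else 0) :=
    sum_lt_sum_of_nonempty ⟨0, mem_range.2 hq.pos⟩ fun r _ => hcon r
  rw [sum_const, card_range, nsmul_eq_mul, mul_sum, sum_comm] at h1
  have h2 : ∀ i ∈ I, ∑ r ∈ range q, (if ¬ ((q : ℤ) ∣ a i) → ¬ ((q : ℤ) ∣ a i * r + b i) then u i else 0) ≤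
      (q : ℝ) * (u i * (if (q : ℤ) ∣ a i then 1 else 1 - 1 / (q : ℝ))) := by
    intro i _
    rw [← sum_filter, sum_const, nsmul_eq_mul]
    by_cases h : (q : ℤ) ∣ a i
    · rw [if_pos h, mul_one]
      apply mul_le_mul_of_nonneg_right _ (hu i)
      have : ((range q).filter (fun r : ℕ => ¬ ((q : ℤ) ∣ a i) → ¬ ((q : ℤ) ∣ a i * r + b i))).card ≤ q := by
        refine (card_le_card (filter_subset _ _)).trans ?_
        rw [card_range]
      exact_mod_cast this
    · rw [if_neg h]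
      have hcop : IsCoprime (a i) (q : ℤ) := by
        rw [isCoprime_comm]
        exact (Prime.coprime_iff_not_dvd (Nat.prime_iff_prime_int.1 hq)).2 h
      obtain ⟨s, t, hst⟩ := hcop
      have hr0 : ∃ r₀ : ℕ, r₀ < q ∧ (q : ℤ) ∣ a i * r₀ + b i := by
        have hqz : (0 : ℤ) < q := by exact_mod_cast hq.pos
        refine ⟨((-(s * b i)) % (q : ℤ)).toNat, ?_, ?_⟩
        · have := Int.emod_lt_of_pos (-(s * b i)) hqz
          have h0 := Int.emod_nonneg (-(s * b i)) hqz.ne'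
          omega
        · have h0 := Int.emod_nonneg (-(s * b i)) hqz.ne'
          rw [Int.toNat_of_nonneg h0]
          have h3 : (q : ℤ) ∣ (-(s * b i)) - (-(s * b i)) % (q : ℤ) := Int.dvd_self_sub_emod
          have h4 : a i * ((-(s * b i)) % (q : ℤ)) + b i =
              -(a i * ((-(s * b i)) - (-(s * b i)) % (q : ℤ))) + (b i) * (t * q) := by
            have : b i = b i * (s * a i + t * q) := by rw [hst, mul_one]
            linear_combination this
          rw [h4]
          exact dvd_add (Dvd.dvd.mul_left h3 _ |>.neg_right) (Dvd.intro_left (b i * t) (by ring))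
      obtain ⟨r₀, hr1, hr2⟩ := hr0
      have h5 : ((range q).filter (fun r : ℕ => ¬ ((q : ℤ) ∣ a i) → ¬ ((q : ℤ) ∣ a i * r + b i))).card + 1 ≤ q := by
        have h6 : (range q).filter (fun r : ℕ => ¬ ((q : ℤ) ∣ a i) → ¬ ((q : ℤ) ∣ a i * r + b i)) ⊆
            (range q).erase r₀ := by
          intro r hr
          rw [mem_filter] at hr
          rw [mem_erase]
          refine ⟨?_, hr.1⟩
          rintro rfl
          exact hr.2 h hr2
        have h7 := card_le_card h6
        rw [card_erase_of_mem (mem_range.2 hr1), card_range] at h7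
        have := hq.pos
        omega
      have h8 : (((range q).filter (fun r : ℕ => ¬ ((q : ℤ) ∣ a i) → ¬ ((q : ℤ) ∣ a i * r + b i))).card : ℝ) ≤
          q - 1 := by
        have : ((((range q).filter (fun r : ℕ => ¬ ((q : ℤ) ∣ a i) →
          ¬ ((q : ℤ) ∣ a i * r + b i))).card + 1 : ℕ) : ℝ) ≤ q := by exact_mod_cast h5
        push_cast at this
        linarith
      calc _ ≤ ((q : ℝ) - 1) * u i := mul_le_mul_of_nonneg_right h8 (hu i)
        _ = _ := by field_simp
  exact absurd h1 (not_lt.2 (sum_le_sum h2))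

open scoped Classical in
lemma lin_greedy {ι : Type} (I : Finset ι) (a b : ι → ℤ) (S : Finset ℕ) (hS : ∀ p ∈ S, p.Prime) :
    ∀ v : ι → ℝ, (∀ i, 0 ≤ v i) → ∃ r : ℕ → ℕ,
      ∑ i ∈ I, (if ∀ p ∈ S, ¬ ((p : ℤ) ∣ a i) → ¬ ((p : ℤ) ∣ a i * r p + b i) then v i else 0) ≤
      ∑ i ∈ I, v i * ∏ p ∈ S, (if (p : ℤ) ∣ a i then 1 else 1 - 1 / (p : ℝ)) := by
  induction S using Finset.induction_on with
  | empty =>
    intro v _
    exact ⟨fun _ => 0, by simp⟩
  | insert q S hqS ih =>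
    intro v hv
    have hqp : q.Prime := hS q (mem_insert_self _ _)
    have hSp : ∀ p ∈ S, p.Prime := fun p hp => hS p (mem_insert_of_mem hp)
    have hpi : ∀ i, 0 ≤ ∏ p ∈ S, (if (p : ℤ) ∣ a i then 1 else 1 - 1 / (p : ℝ)) := by
      intro i
      apply prod_nonneg
      intro p hp
      split_ifs
      · norm_num
      · have : (1 : ℝ) ≤ p := by exact_mod_cast (hSp p hp).one_le
        have h1 : 1 / (p : ℝ) ≤ 1 := by rw [div_le_one (by linarith)]; exact this
        linarith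
    obtain ⟨rq, hrq⟩ := lin_step I a b (fun i => v i * ∏ p ∈ S, (if (p : ℤ) ∣ a i then 1 else 1 - 1 / (p : ℝ)))
      (fun i => mul_nonneg (hv i) (hpi i)) q hqp
    obtain ⟨r, hr⟩ := ih hSp (fun i => if ¬ ((q : ℤ) ∣ a i) → ¬ ((q : ℤ) ∣ a i * rq + b i) then v i else 0)
      (fun i => by beta_reduce; split_ifs; exacts [hv i, le_rfl])
    refine ⟨Function.update r q rq, ?_⟩
    have e1 : ∀ i ∈ I, (if ∀ p ∈ insert q S, ¬ ((p : ℤ) ∣ a i) →
        ¬ ((p : ℤ) ∣ a i * (Function.update r q rq p : ℕ) + b i) then v i else 0) =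
        (if ∀ p ∈ S, ¬ ((p : ℤ) ∣ a i) → ¬ ((p : ℤ) ∣ a i * r p + b i) then
          (if ¬ ((q : ℤ) ∣ a i) → ¬ ((q : ℤ) ∣ a i * rq + b i) then v i else 0) else 0) := by
      intro i _
      have e2 : (∀ p ∈ insert q S, ¬ ((p : ℤ) ∣ a i) → ¬ ((p : ℤ) ∣ a i * (Function.update r q rq p : ℕ) + b i)) ↔
          (∀ p ∈ S, ¬ ((p : ℤ) ∣ a i) → ¬ ((p : ℤ) ∣ a i * r p + b i)) ∧
          (¬ ((q : ℤ) ∣ a i) → ¬ ((q : ℤ) ∣ a i * rq + b i)) := by
        rw [forall_mem_insert, Function.update_self, and_comm]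
        refine and_congr_left fun _ => ?_
        refine forall₂_congr fun p hp => ?_
        have hpq : p ≠ q := by rintro rfl; exact hqS hp
        rw [Function.update_of_ne hpq]
      by_cases h1 : ∀ p ∈ S, ¬ ((p : ℤ) ∣ a i) → ¬ ((p : ℤ) ∣ a i * r p + b i)
      · by_cases h2 : ¬ ((q : ℤ) ∣ a i) → ¬ ((q : ℤ) ∣ a i * rq + b i)
        · rw [if_pos (e2.2 ⟨h1, h2⟩), if_pos h1, if_pos h2]
        · rw [if_neg (fun h => h2 (e2.1 h).2), if_pos h1, if_neg h2]
      · rw [if_neg (fun h => h1 (e2.1 h).1), if_neg h1]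
    rw [sum_congr rfl e1]
    refine hr.trans ?_
    calc _ = ∑ i ∈ I, (if ¬ ((q : ℤ) ∣ a i) → ¬ ((q : ℤ) ∣ a i * rq + b i) then
          v i * ∏ p ∈ S, (if (p : ℤ) ∣ a i then 1 else 1 - 1 / (p : ℝ)) else 0) := by
          refine sum_congr rfl fun i _ => ?_
          rw [ite_mul, zero_mul]
      _ ≤ _ := hrq
      _ = _ := by
          refine sum_congr rfl fun i _ => ?_
          rw [prod_insert hqS]
          ring

open Pool.Agent.H410R2.AC Pool.Agent.H647R2.ACNT in
/-- the product over the small primes -/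
lemma prod_small (H : ℕ) (hH : 2 ≤ H) (a : ℤ) (ha : a ≠ 0) :
    (∏ p ∈ SH H, (if (p : ℤ) ∣ a then 1 else 1 - 1 / (p : ℝ))) * Real.log H ≤
      (a.natAbs : ℝ) / (Nat.totient a.natAbs : ℝ) := by
  have hSp : ∀ p ∈ SH H, p.Prime := fun p hp => (mem_filter.1 hp).2
  have h2 : Real.log H ≤ Pi1 (SH H) := by
    refine (Pool.Agent.H647R2.ACNT.log_le_sum H).trans ?_
    apply Pool.Agent.H647R2.ACNT.sum_factored
    · exact hSp
    · intro n hn
      rw [Finset.mem_Icc] at hn
      rw [Nat.mem_factoredNumbers_iff_primeFactors_subset]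
      refine ⟨by omega, ?_⟩
      intro p hp
      have h3 := Nat.prime_of_mem_primeFactors hp
      have h4 := Nat.le_of_mem_primeFactors hp
      unfold SH
      rw [Finset.mem_filter, Finset.mem_range]
      exact ⟨by omega, h3⟩
  have hf : ∀ p : ℕ, p.Prime → (1 : ℝ) < 1 + 1 / ((p : ℝ) - 1) ∧ (1 - 1 / (p : ℝ)) * (1 + 1 / ((p : ℝ) - 1)) = 1 := by
    intro p hp
    have h1 : (1 : ℝ) < p := by exact_mod_cast hp.one_lt
    have h3 : (0 : ℝ) < (p : ℝ) - 1 := by linarith
    constructor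
    · have : 0 < 1 / ((p : ℝ) - 1) := by positivity
      linarith
    · field_simp
      ring
  have hpn : 0 ≤ ∏ p ∈ SH H, (if (p : ℤ) ∣ a then 1 else 1 - 1 / (p : ℝ)) := by
    apply prod_nonneg
    intro p hp
    split_ifs
    · norm_num
    · have : (1 : ℝ) ≤ p := by exact_mod_cast (hSp p hp).one_le
      have h1 : 1 / (p : ℝ) ≤ 1 := by rw [div_le_one (by linarith)]; exact this
      linarith
  have hna : 0 < a.natAbs := Int.natAbs_pos.2 ha
  calc _ ≤ (∏ p ∈ SH H, (if (p : ℤ) ∣ a then 1 else 1 - 1 / (p : ℝ))) * Pi1 (SH H) :=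
        mul_le_mul_of_nonneg_left h2 hpn
    _ = ∏ p ∈ SH H, (if (p : ℤ) ∣ a then 1 + 1 / ((p : ℝ) - 1) else 1) := by
        unfold Pi1
        rw [← prod_mul_distrib]
        refine prod_congr rfl fun p hp => ?_
        split_ifs
        · rw [one_mul]
        · exact (hf p (hSp p hp)).2
    _ = ∏ p ∈ (SH H).filter (fun p : ℕ => (p : ℤ) ∣ a), (1 + 1 / ((p : ℝ) - 1)) := by
        rw [prod_filter]
    _ ≤ ∏ p ∈ a.natAbs.primeFactors, (1 + 1 / ((p : ℝ) - 1)) := by
        have hsub : (SH H).filter (fun p : ℕ => (p : ℤ) ∣ a) ⊆ a.natAbs.primeFactors := by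
          intro p hp
          rw [mem_filter] at hp
          rw [Nat.mem_primeFactors]
          exact ⟨hSp p hp.1, Int.natCast_dvd.1 hp.2, hna.ne'⟩
        rw [← prod_sdiff hsub]
        have h8 : 0 ≤ ∏ p ∈ (SH H).filter (fun p : ℕ => (p : ℤ) ∣ a), (1 + 1 / ((p : ℝ) - 1)) :=
          prod_nonneg fun p hp => (zero_le_one.trans (hf p (hSp p (mem_filter.1 hp).1)).1.le)
        refine le_mul_of_one_le_left h8 ?_
        have h9 : ∏ p ∈ a.natAbs.primeFactors \ (SH H).filter (fun p : ℕ => (p : ℤ) ∣ a), (1 : ℝ) ≤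
            ∏ p ∈ a.natAbs.primeFactors \ (SH H).filter (fun p : ℕ => (p : ℤ) ∣ a), (1 + 1 / ((p : ℝ) - 1)) :=
          prod_le_prod (fun _ _ => zero_le_one) fun p hp =>
            (hf p (Nat.prime_of_mem_primeFactors (mem_sdiff.1 hp).1)).1.le
        rw [prod_const_one] at h9
        exact h9
    _ = _ := by
        have ht : (0 : ℝ) < Nat.totient a.natAbs := by exact_mod_cast Nat.totient_pos.2 hna
        rw [eq_div_iff ht.ne']
        have h5 := Nat.totient_eq_mul_prod_factors a.natAbs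
        have h6 : (Nat.totient a.natAbs : ℝ) = a.natAbs * ∏ p ∈ a.natAbs.primeFactors, (1 - (p : ℝ)⁻¹) := by
          have := congrArg (fun x : ℚ => (x : ℝ)) h5
          push_cast at this
          exact this
        rw [h6]
        have h7 : (∏ p ∈ a.natAbs.primeFactors, (1 + 1 / ((p : ℝ) - 1))) *
            ∏ p ∈ a.natAbs.primeFactors, (1 - (p : ℝ)⁻¹) = 1 := by
          rw [← prod_mul_distrib]
          apply prod_eq_one
          intro p hp
          have := (hf p (Nat.prime_of_mem_primeFactors hp)).2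
          rw [one_div] at this
          rw [mul_comm]
          exact this
        linear_combination (a.natAbs : ℝ) * h7

end Pool.Agent.X10.SP.Lin
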