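import Pool.Agent.X10.SP.Lin

set_option autoImplicit false

/-! # Simultaneously composite values of `c log X log log X` linear forms: the covering theorem (helper10) -/

namespace Pool.Agent.X10.SP.Lin

open Finset Filter

lemma natlog_le {n : ℕ} (hn : n ≠ 0) {T : ℝ} (hT : 0 ≤ T) (h : (n : ℝ) ≤ Real.exp T) :
    (Nat.log 2 n : ℝ) ≤ 3 / 2 * T := by
  have h1 : ((2 ^ Nat.log 2 n : ℕ) : ℝ) ≤ n := by exact_mod_cast Nat.pow_log_le_self 2 hn
  have h2 : (2 : ℝ) ^ Nat.log 2 n ≤ Real.exp T := by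
    push_cast at h1
    exact h1.trans h
  have h3 : (Nat.log 2 n : ℝ) * Real.log 2 ≤ T := by
    have := Real.log_le_log (by positivity) h2
    rwa [Real.log_pow, Real.log_exp] at this
  have h4 := Real.log_two_gt_d9
  have h5 : (0 : ℝ) ≤ (Nat.log 2 n : ℝ) := Nat.cast_nonneg _
  nlinarith

open scoped Classical in
theorem core : ∃ c : ℝ, 0 < c ∧ ∃ X₀ : ℕ, ∀ X : ℕ, X₀ ≤ X → ∀ (ι : Type) (I : Finset ι) (a b : ι → ℤ),
    (∀ i ∈ I, a i ≠ 0) → (∀ i ∈ I, ((a i).natAbs : ℝ) ≤ Real.exp (5 * Real.log X ^ 2)) →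
    (∀ i ∈ I, ((b i).natAbs : ℝ) ≤ Real.exp (5 * Real.log X ^ 2)) →
    ∑ i ∈ I, ((a i).natAbs : ℝ) / (Nat.totient (a i).natAbs : ℝ) ≤ c * (Real.log X * Real.log (Real.log X)) →
    ∀ M : ℤ, (∀ n ∈ Ioc M (M + X), ∀ i ∈ I, (X : ℝ) ^ (1 / 10 : ℝ) < ((a i * n + b i).natAbs : ℝ)) →
    ∃ n ∈ Ioc M (M + X), ∀ i ∈ I, ¬ (a i * n + b i).natAbs.Prime := by
  obtain ⟨c₁, hc₁, X₁, hcov⟩ := covering6
  obtain ⟨c₂, hc₂⟩ : ∃ c₂ : ℝ, c₂ = min c₁ 1 := ⟨_, rfl⟩
  have hc20 : 0 < c₂ := by rw [hc₂]; exact lt_min hc₁ one_pos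
  have hc21 : c₂ ≤ c₁ := by rw [hc₂]; exact min_le_left _ _
  have hc22 : c₂ ≤ 1 := by rw [hc₂]; exact min_le_right _ _
  refine ⟨c₂ / 2, by positivity, ?_⟩
  have tlog : Tendsto (fun n : ℕ => Real.log (n : ℝ)) atTop atTop := Real.tendsto_log_atTop.comp tendsto_natCast_atTop_atTop
  have tloglog : Tendsto (fun n : ℕ => Real.log (Real.log (n : ℝ))) atTop atTop := Real.tendsto_log_atTop.comp tlog
  have tpow : ∀ a : ℝ, 0 < a → Tendsto (fun n : ℕ => (n : ℝ) ^ a) atTop atTop := fun a ha =>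
    (tendsto_rpow_atTop ha).comp tendsto_natCast_atTop_atTop
  obtain ⟨X₂, hX₂⟩ := eventually_atTop.1 ((tlog.eventually_ge_atTop 1000).and
    ((tloglog.eventually_ge_atTop (4 * Real.log 200 + 1)).and ((tpow (1 / 10) (by norm_num)).eventually_ge_atTop 2)))
  have hlsm : ∀ᶠ n : ℕ in atTop, Real.log (n : ℝ) ≤ (n : ℝ) ^ (1 / 10 : ℝ) := by
    have h0 : (fun x : ℝ => Real.log x) =o[atTop] fun x : ℝ => x ^ (1 / 10 : ℝ) :=
      isLittleO_log_rpow_atTop (by norm_num)
    have h := h0.bound one_pos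
    filter_upwards [tendsto_natCast_atTop_atTop.eventually h] with n hn
    rw [one_mul, Real.norm_eq_abs, Real.norm_eq_abs,
      abs_of_nonneg (by positivity : (0 : ℝ) ≤ (n : ℝ) ^ (1 / 10 : ℝ))] at hn
    exact (le_abs_self _).trans hn
  obtain ⟨X₃, hX₃⟩ := eventually_atTop.1 hlsm
  refine ⟨max (max (max X₂ X₃) ⌈X₁⌉₊) 2, fun X hX ι I a b ha0 haX hbX hw M hlarge => ?_⟩
  obtain ⟨a1, a2, a3⟩ := hX₂ X (by omega)
  have hlogpow := hX₃ X (by omega)
  have hXX1 : X₁ ≤ X := by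
    have : (⌈X₁⌉₊ : ℝ) ≤ X := by exact_mod_cast (by omega : ⌈X₁⌉₊ ≤ X)
    exact (Nat.le_ceil _).trans this
  have hX2 : 2 ≤ X := by omega
  have hX0 : (0 : ℝ) < X := by exact_mod_cast (by omega : 0 < X)
  obtain ⟨L, hL⟩ : ∃ L, L = Real.log (X : ℝ) := ⟨_, rfl⟩
  rw [← hL] at a1 a2 hw hlogpow
  simp only [← hL] at haX hbX
  have hL0 : 0 < L := by linarith
  -- sieving by small primes
  obtain ⟨H, hH⟩ : ∃ H : ℕ, H = ⌊L / 100⌋₊ := ⟨_, rfl⟩
  have hH1 : (H : ℝ) ≤ L / 100 := by rw [hH]; exact Nat.floor_le (by positivity)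
  have hH2 : L / 200 ≤ H := by
    have := Nat.lt_floor_add_one (L / 100)
    rw [← hH] at this
    linarith
  have hH3 : 2 ≤ H := by
    have : (2 : ℝ) ≤ H := by linarith
    exact_mod_cast this
  have hlogH : Real.log L / 2 ≤ Real.log H := by
    have h1 : Real.log (L / 200) ≤ Real.log H := Real.log_le_log (by positivity) hH2
    rw [Real.log_div hL0.ne' (by norm_num)] at h1
    have h0 : 0 ≤ Real.log 200 := Real.log_nonneg (by norm_num)
    linarith
  have hll : 0 < Real.log L := by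
    have : 0 ≤ Real.log 200 := Real.log_nonneg (by norm_num)
    linarith
  have hSp : ∀ p ∈ Pool.Agent.H647R2.ACNT.SH H, p.Prime := fun p hp => (mem_filter.1 hp).2
  have hSle : ∀ p ∈ Pool.Agent.H647R2.ACNT.SH H, p ≤ H := fun p hp => by
    have := mem_range.1 (mem_filter.1 hp).1
    omega
  obtain ⟨r, hr⟩ := lin_greedy I a b (Pool.Agent.H647R2.ACNT.SH H) hSp (fun _ => 1) (fun _ => zero_le_one)
  obtain ⟨n₀, hn₀⟩ := Nat.chineseRemainderOfFinset r (fun p => p) (Pool.Agent.H647R2.ACNT.SH H)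
    (fun p hp => (hSp p hp).ne_zero) (fun p hp q hq hpq => (Nat.coprime_primes (hSp p hp) (hSp q hq)).2 hpq)
  have hn0 : ∀ p ∈ Pool.Agent.H647R2.ACNT.SH H, (p : ℤ) ∣ (n₀ : ℤ) - r p := fun p hp =>
    (Int.natCast_modEq_iff.2 (hn₀ p hp).symm).dvd
  obtain ⟨I₂, hI₂⟩ : ∃ I₂ : Finset ι, I₂ = I.filter (fun i => ∀ p ∈ Pool.Agent.H647R2.ACNT.SH H,
    ¬ ((p : ℤ) ∣ a i) → ¬ ((p : ℤ) ∣ a i * n₀ + b i)) := ⟨_, rfl⟩
  have hI₂c : (I₂.card : ℝ) ≤ c₂ * L := by
    have h1 : (I₂.card : ℝ) = ∑ i ∈ I, (if ∀ p ∈ Pool.Agent.H647R2.ACNT.SH H, ¬ ((p : ℤ) ∣ a i) →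
        ¬ ((p : ℤ) ∣ a i * r p + b i) then (1 : ℝ) else 0) := by
      rw [hI₂, sum_boole]
      congr 2
      refine filter_congr fun i _ => ?_
      refine forall₂_congr fun p hp => ?_
      refine imp_congr_right fun _ => not_congr ?_
      have h2 : a i * (n₀ : ℤ) + b i = a i * ((n₀ : ℤ) - r p) + (a i * r p + b i) := by ring
      rw [h2]
      exact ⟨fun h => (Int.dvd_add_right ((hn0 p hp).mul_left (a i))).1 h,
        fun h => (Int.dvd_add_right ((hn0 p hp).mul_left (a i))).2 h⟩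
    have h3 : (I₂.card : ℝ) * Real.log H ≤ c₂ / 2 * (L * Real.log L) := by
      rw [h1]
      refine le_trans ?_ hw
      refine (mul_le_mul_of_nonneg_right hr (Real.log_natCast_nonneg _)).trans ?_
      rw [sum_mul]
      refine sum_le_sum fun i hi => ?_
      rw [one_mul]
      exact prod_small H hH3 (a i) (ha0 i hi)
    have h4 : (I₂.card : ℝ) * (Real.log L / 2) ≤ (c₂ * L) * (Real.log L / 2) := by
      calc (I₂.card : ℝ) * (Real.log L / 2) ≤ I₂.card * Real.log H :=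
            mul_le_mul_of_nonneg_left hlogH (Nat.cast_nonneg _)
        _ ≤ c₂ / 2 * (L * Real.log L) := h3
        _ = _ := by ring
    exact le_of_mul_le_mul_right h4 (by positivity)
  have hI₂I : I₂ ⊆ I := by rw [hI₂]; exact filter_subset _ _
  -- the modulus
  obtain ⟨P, hP⟩ : ∃ P : ℕ, P = primorial H := ⟨_, rfl⟩
  have hP0 : 0 < P := by rw [hP]; exact primorial_pos H
  have hPb : (P : ℝ) ≤ (X : ℝ) ^ (1 / 50 : ℝ) := by
    rw [hP]
    exact Pool.Agent.H143R2.ACF.primorial_bound (by omega) (by rw [← hL]; exact hH1)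
  have hPd : ∀ p ∈ Pool.Agent.H647R2.ACNT.SH H, p ∣ P := fun p hp => by
    rw [hP]
    exact dvd_prod_of_mem (fun p => p) hp
  -- the roots
  obtain ⟨rt, hrt⟩ : ∃ rt : ι → ℚ, rt = fun i => -(b i : ℚ) / (a i : ℚ) := ⟨_, rfl⟩
  obtain ⟨R, hR⟩ : ∃ R : Finset ℚ, R = I₂.image rt := ⟨_, rfl⟩
  have hRc : R.card ≤ I₂.card := by rw [hR]; exact card_image_le
  have hrep : ∀ ρ : R, ∃ i ∈ I₂, rt i = ρ := fun ρ => by
    have h1 : (ρ : ℚ) ∈ I₂.image rt := hR ▸ ρ.2
    rw [mem_image] at h1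
    exact h1
  choose rep hrepI hrep2 using hrep
  have hinj : ∀ i j : ι, i ∈ I → j ∈ I → (rt i = rt j ↔ a i * b j = a j * b i) := by
    intro i j hi hj
    rw [hrt]
    have h1 : (a i : ℚ) ≠ 0 := by exact_mod_cast ha0 i hi
    have h2 : (a j : ℚ) ≠ 0 := by exact_mod_cast ha0 j hj
    simp only
    rw [div_eq_div_iff h1 h2]
    constructor
    · intro h
      have h3 : (a i : ℚ) * b j = a j * b i := by linear_combination h
      exact_mod_cast h3
    · intro h
      have h3 : (a i : ℚ) * b j = a j * b i := by exact_mod_cast h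
      linear_combination h3
  -- the exceptional primes
  obtain ⟨B, hB⟩ : ∃ B : Finset ℕ, B = (univ : Finset R).biUnion (fun ρ => (a (rep ρ)).natAbs.primeFactors) ∪
    ((univ : Finset (R × R)).filter (fun v => v.1 ≠ v.2)).biUnion
    (fun v => (a (rep v.1) * b (rep v.2) - a (rep v.2) * b (rep v.1)).natAbs.primeFactors) := ⟨_, rfl⟩
  have hRL : (R.card : ℝ) ≤ L := by
    have : (R.card : ℝ) ≤ I₂.card := by exact_mod_cast hRc
    exact this.trans (hI₂c.trans (by nlinarith))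
  have hBc : (B.card : ℝ) ≤ L ^ 5 := by
    have hab : ∀ i ∈ I₂, ∀ j ∈ I₂, (((a i).natAbs * (b j).natAbs : ℕ) : ℝ) ≤ Real.exp (10 * L ^ 2) := by
      intro i hi j hj
      push_cast
      calc ((a i).natAbs : ℝ) * (b j).natAbs ≤ Real.exp (5 * L ^ 2) * Real.exp (5 * L ^ 2) :=
            mul_le_mul (haX i (hI₂I hi)) (hbX j (hI₂I hj)) (Nat.cast_nonneg _) (Real.exp_pos _).le
        _ = _ := by rw [← Real.exp_add]; ring_nf
    have e1 : ∀ ρ : R, (((a (rep ρ)).natAbs.primeFactors.card : ℕ) : ℝ) ≤ 20 * L ^ 2 := by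
      intro ρ
      have h1 := natlog_le (Int.natAbs_ne_zero.2 (ha0 _ (hI₂I (hrepI ρ)))) (by positivity) (haX _ (hI₂I (hrepI ρ)))
      have h2 : (((a (rep ρ)).natAbs.primeFactors.card : ℕ) : ℝ) ≤ Nat.log 2 (a (rep ρ)).natAbs := by
        exact_mod_cast card_primeFactors_le_log
      nlinarith [sq_nonneg L]
    have e2 : ∀ v : R × R, v.1 ≠ v.2 →
        (((a (rep v.1) * b (rep v.2) - a (rep v.2) * b (rep v.1)).natAbs.primeFactors.card : ℕ) : ℝ) ≤ 20 * L ^ 2 := by
      intro v hv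
      have hne : (a (rep v.1) * b (rep v.2) - a (rep v.2) * b (rep v.1)).natAbs ≠ 0 := by
        rw [Int.natAbs_ne_zero, sub_ne_zero]
        intro h
        have h1 := (hinj _ _ (hI₂I (hrepI v.1)) (hI₂I (hrepI v.2))).2 h
        rw [hrep2, hrep2] at h1
        exact hv (Subtype.ext h1)
      have h3 : ((a (rep v.1) * b (rep v.2) - a (rep v.2) * b (rep v.1)).natAbs : ℝ) ≤ Real.exp (1 + 10 * L ^ 2) := by
        have h4 : (a (rep v.1) * b (rep v.2) - a (rep v.2) * b (rep v.1)).natAbs ≤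
            (a (rep v.1)).natAbs * (b (rep v.2)).natAbs + (a (rep v.2)).natAbs * (b (rep v.1)).natAbs := by
          rw [← Int.natAbs_mul, ← Int.natAbs_mul]
          exact Int.natAbs_sub_le _ _
        have h5 : ((a (rep v.1) * b (rep v.2) - a (rep v.2) * b (rep v.1)).natAbs : ℝ) ≤
            (((a (rep v.1)).natAbs * (b (rep v.2)).natAbs : ℕ) : ℝ) +
            (((a (rep v.2)).natAbs * (b (rep v.1)).natAbs : ℕ) : ℝ) := by exact_mod_cast h4
        have h6 := hab _ (hrepI v.1) _ (hrepI v.2)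
        have h7 := hab _ (hrepI v.2) _ (hrepI v.1)
        rw [Real.exp_add]
        have h8 := Real.add_one_le_exp (1 : ℝ)
        have h9 := Real.exp_pos (10 * L ^ 2)
        nlinarith
      have h1 := natlog_le hne (by positivity) h3
      have h2 : (((a (rep v.1) * b (rep v.2) - a (rep v.2) * b (rep v.1)).natAbs.primeFactors.card : ℕ) : ℝ) ≤
          Nat.log 2 (a (rep v.1) * b (rep v.2) - a (rep v.2) * b (rep v.1)).natAbs := by
        exact_mod_cast card_primeFactors_le_log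
      nlinarith [sq_nonneg L]
    have e3 : (B.card : ℝ) ≤ R.card * (20 * L ^ 2) + (R.card * R.card : ℕ) * (20 * L ^ 2) := by
      rw [hB]
      have h1 : ((((univ : Finset R).biUnion (fun ρ => (a (rep ρ)).natAbs.primeFactors)).card : ℕ) : ℝ) ≤
          R.card * (20 * L ^ 2) := by
        have h2 : ((((univ : Finset R).biUnion (fun ρ => (a (rep ρ)).natAbs.primeFactors)).card : ℕ) : ℝ) ≤
            ∑ ρ : R, (((a (rep ρ)).natAbs.primeFactors.card : ℕ) : ℝ) := by exact_mod_cast card_biUnion_le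
        refine h2.trans ((sum_le_sum fun ρ _ => e1 ρ).trans ?_)
        rw [sum_const, card_univ, Fintype.card_coe, nsmul_eq_mul]
      have h3 : (((((univ : Finset (R × R)).filter (fun v => v.1 ≠ v.2)).biUnion
          (fun v => (a (rep v.1) * b (rep v.2) - a (rep v.2) * b (rep v.1)).natAbs.primeFactors)).card : ℕ) : ℝ) ≤
          (R.card * R.card : ℕ) * (20 * L ^ 2) := by
        have h2 : (((((univ : Finset (R × R)).filter (fun v => v.1 ≠ v.2)).biUnion
            (fun v => (a (rep v.1) * b (rep v.2) - a (rep v.2) * b (rep v.1)).natAbs.primeFactors)).card : ℕ) : ℝ) ≤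
            ∑ v ∈ (univ : Finset (R × R)).filter (fun v => v.1 ≠ v.2),
            (((a (rep v.1) * b (rep v.2) - a (rep v.2) * b (rep v.1)).natAbs.primeFactors.card : ℕ) : ℝ) := by
          exact_mod_cast card_biUnion_le
        refine h2.trans ((sum_le_sum fun v hv => e2 v (mem_filter.1 hv).2).trans ?_)
        rw [sum_const, nsmul_eq_mul]
        apply mul_le_mul_of_nonneg_right _ (by positivity)
        have : ((univ : Finset (R × R)).filter (fun v => v.1 ≠ v.2)).card ≤ R.card * R.card := by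
          refine (card_le_card (filter_subset _ _)).trans ?_
          rw [card_univ, Fintype.card_prod, Fintype.card_coe]
        exact_mod_cast this
      have h4 := card_union_le ((univ : Finset R).biUnion (fun ρ => (a (rep ρ)).natAbs.primeFactors))
        (((univ : Finset (R × R)).filter (fun v => v.1 ≠ v.2)).biUnion
          (fun v => (a (rep v.1) * b (rep v.2) - a (rep v.2) * b (rep v.1)).natAbs.primeFactors))
      have h5 : (((((univ : Finset R).biUnion (fun ρ => (a (rep ρ)).natAbs.primeFactors)) ∪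
        (((univ : Finset (R × R)).filter (fun v => v.1 ≠ v.2)).biUnion
          (fun v => (a (rep v.1) * b (rep v.2) - a (rep v.2) * b (rep v.1)).natAbs.primeFactors))).card : ℕ) : ℝ) ≤
          ((((univ : Finset R).biUnion (fun ρ => (a (rep ρ)).natAbs.primeFactors)).card : ℕ) : ℝ) +
          (((((univ : Finset (R × R)).filter (fun v => v.1 ≠ v.2)).biUnion
          (fun v => (a (rep v.1) * b (rep v.2) - a (rep v.2) * b (rep v.1)).natAbs.primeFactors)).card : ℕ) : ℝ) := by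
        exact_mod_cast h4
      linarith
    calc (B.card : ℝ) ≤ R.card * (20 * L ^ 2) + (R.card * R.card : ℕ) * (20 * L ^ 2) := e3
      _ ≤ L * (20 * L ^ 2) + (L * L) * (20 * L ^ 2) := by
          push_cast
          gcongr
      _ ≤ L ^ 5 := by nlinarith [pow_pos hL0 3, pow_pos hL0 4]
  obtain ⟨res, hres⟩ : ∃ res : ℕ → R → ℤ, ∀ p : ℕ, p.Prime → p ∉ B → ∀ ρ : R,
      (p : ℤ) ∣ a (rep ρ) * res p ρ + b (rep ρ) := by
    refine ⟨fun p ρ => if h : ∃ s : ℤ, (p : ℤ) ∣ a (rep ρ) * s + b (rep ρ) then h.choose else 0, ?_⟩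
    intro p hp hpB ρ
    have hpa : ¬ ((p : ℤ) ∣ a (rep ρ)) := by
      intro h
      apply hpB
      rw [hB, mem_union]
      left
      rw [mem_biUnion]
      exact ⟨ρ, mem_univ _, Nat.mem_primeFactors.2 ⟨hp, Int.natCast_dvd.1 h,
        Int.natAbs_ne_zero.2 (ha0 _ (hI₂I (hrepI ρ)))⟩⟩
    have hex : ∃ s : ℤ, (p : ℤ) ∣ a (rep ρ) * s + b (rep ρ) := by
      have hcop : IsCoprime (a (rep ρ)) (p : ℤ) := by
        rw [isCoprime_comm]
        exact (Prime.coprime_iff_not_dvd (Nat.prime_iff_prime_int.1 hp)).2 hpa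
      obtain ⟨s, t, hst⟩ := hcop
      refine ⟨-(s * b (rep ρ)), ?_⟩
      have : a (rep ρ) * -(s * b (rep ρ)) + b (rep ρ) = (b (rep ρ) * t) * p := by
        linear_combination (-(b (rep ρ))) * hst
      rw [this]
      exact Dvd.intro_left _ rfl
    simp only [dif_pos hex]
    exact hex.choose_spec
  -- the covering theorem
  obtain ⟨x, hx, hxk⟩ := hcov X hXX1 B (by rw [← hL]; exact hBc) R (by
      rw [Fintype.card_coe, ← hL]
      have : (R.card : ℝ) ≤ I₂.card := by exact_mod_cast hRc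
      exact this.trans (hI₂c.trans (mul_le_mul_of_nonneg_right hc21 hL0.le)))
    res (by
      intro p hp _ _ hpB ρ σ hne hdvd
      apply hpB
      rw [hB, mem_union]
      right
      rw [mem_biUnion]
      refine ⟨(ρ, σ), mem_filter.2 ⟨mem_univ _, hne⟩, ?_⟩
      rw [Nat.mem_primeFactors]
      refine ⟨hp, ?_, ?_⟩
      · apply Int.natCast_dvd.1
        simp only
        have h1 := hres p hp hpB ρ
        have h2 := hres p hp hpB σ
        have h3 : a (rep ρ) * b (rep σ) - a (rep σ) * b (rep ρ) =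
            a (rep ρ) * (a (rep σ) * res p σ + b (rep σ)) - a (rep σ) * (a (rep ρ) * res p ρ + b (rep ρ)) +
            a (rep ρ) * a (rep σ) * (res p ρ - res p σ) := by ring
        rw [h3]
        exact dvd_add (dvd_sub (h2.mul_left _) (h1.mul_left _)) (hdvd.mul_left _)
      · simp only
        rw [Int.natAbs_ne_zero, sub_ne_zero]
        intro h
        have h1 := (hinj _ _ (hI₂I (hrepI ρ)) (hI₂I (hrepI σ))).2 h
        rw [hrep2, hrep2] at h1
        exact hne (Subtype.ext h1))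
    ((Ioc M (M + X)).filter (fun x => (P : ℤ) ∣ x - n₀)) (X / P) 1 (by
      rw [le_div_iff₀ (by exact_mod_cast hP0)]
      calc (X : ℝ) ^ (1 / 2 : ℝ) * P ≤ (X : ℝ) ^ (1 / 2 : ℝ) * (X : ℝ) ^ (1 / 50 : ℝ) := by gcongr
        _ = (X : ℝ) ^ (1 / 2 + 1 / 50 : ℝ) := by rw [Real.rpow_add hX0]
        _ ≤ (X : ℝ) ^ (1 : ℝ) := Real.rpow_le_rpow_of_exponent_le (by exact_mod_cast (by omega : 1 ≤ X)) (by norm_num)
        _ = X := Real.rpow_one _) (by norm_num) (by linarith) (by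
      intro q hq _ hqp r
      have hq0 : 0 < q := Nat.pos_of_ne_zero hq.ne_zero
      have hcop : Nat.Coprime P q := by
        rw [Nat.coprime_iff_gcd_eq_one]
        by_contra hcon
        obtain ⟨p, hp, hpd⟩ := Nat.exists_prime_and_dvd hcon
        have h1 : p ∣ P := hpd.trans (Nat.gcd_dvd_left _ _)
        have h2 : p ∣ q := hpd.trans (Nat.gcd_dvd_right _ _)
        rw [hP] at h1
        have h3 := Pool.Agent.H143R2.ACF.prime_dvd_primorial hp h1
        have h4 := (hqp p (Nat.mem_primeFactors.2 ⟨hp, h2, hq0.ne'⟩)).1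
        rw [← hL] at h4
        have h5 : (p : ℝ) ≤ H := by exact_mod_cast h3
        have h6 : L ≤ L ^ 6 := le_self_pow₀ (by linarith) (by norm_num)
        linarith
      have h1 := Pool.Agent.H378R2.PS.count_two M (M + X) (by omega) P q hP0 hq0 hcop n₀ r
      push_cast at h1
      rw [add_sub_cancel_left] at h1
      exact h1)
  rw [mem_filter, mem_Ioc] at hx
  obtain ⟨⟨hx1, hx2⟩, hx3⟩ := hx
  refine ⟨x, mem_Ioc.2 ⟨hx1, hx2⟩, fun i hi hprime => ?_⟩
  have hbig := hlarge x (mem_Ioc.2 ⟨hx1, hx2⟩) i hi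
  -- a small prime divides the value
  suffices h : ∃ p : ℕ, p.Prime ∧ (p : ℝ) ≤ (X : ℝ) ^ (1 / 10 : ℝ) ∧ (p : ℤ) ∣ a i * x + b i by
    obtain ⟨p, hp, hpX, hpd⟩ := h
    have h1 : p ∣ (a i * x + b i).natAbs := Int.natCast_dvd.1 hpd
    have h2 : p = (a i * x + b i).natAbs := (Nat.prime_dvd_prime_iff_eq hp hprime).1 h1
    rw [← h2] at hbig
    linarith
  by_cases hi2 : i ∈ I₂
  · have hρ : rt i ∈ R := by rw [hR]; exact mem_image_of_mem _ hi2
    obtain ⟨p, hp, _, hpX, hpB, hpd⟩ := hxk ⟨rt i, hρ⟩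
    refine ⟨p, hp, hpX, ?_⟩
    obtain ⟨ρ, hρe⟩ : ∃ ρ : R, ρ = ⟨rt i, hρ⟩ := ⟨_, rfl⟩
    rw [← hρe] at hpd
    have h1 := hres p hp hpB ρ
    have h2 : (p : ℤ) ∣ a (rep ρ) * x + b (rep ρ) := by
      have h3 : a (rep ρ) * x + b (rep ρ) = (a (rep ρ) * res p ρ + b (rep ρ)) + a (rep ρ) * (x - res p ρ) := by ring
      rw [h3]
      exact dvd_add h1 (hpd.mul_left _)
    have h4 : a i * b (rep ρ) = a (rep ρ) * b i := by
      apply (hinj _ _ hi (hI₂I (hrepI ρ))).1
      rw [hrep2, hρe]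
    have h5 : (p : ℤ) ∣ a (rep ρ) * (a i * x + b i) := by
      have h6 : a (rep ρ) * (a i * x + b i) = a i * (a (rep ρ) * x + b (rep ρ)) := by linear_combination -h4
      rw [h6]
      exact h2.mul_left _
    have hpa : ¬ ((p : ℤ) ∣ a (rep ρ)) := by
      intro h
      apply hpB
      rw [hB, mem_union]
      left
      rw [mem_biUnion]
      exact ⟨ρ, mem_univ _, Nat.mem_primeFactors.2 ⟨hp, Int.natCast_dvd.1 h,
        Int.natAbs_ne_zero.2 (ha0 _ (hI₂I (hrepI ρ)))⟩⟩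
    exact ((Nat.prime_iff_prime_int.1 hp).dvd_or_dvd h5).resolve_left hpa
  · rw [hI₂, mem_filter, not_and] at hi2
    have h1 := hi2 hi
    push Not at h1
    obtain ⟨p, hpS, hpa, hpd⟩ := h1
    refine ⟨p, hSp p hpS, ?_, ?_⟩
    · have h2 : (p : ℝ) ≤ H := by exact_mod_cast hSle p hpS
      linarith
    · have h3 : (p : ℤ) ∣ x - n₀ := (Int.natCast_dvd_natCast.2 (hPd p hpS)).trans hx3
      have h4 : a i * x + b i = a i * (x - n₀) + (a i * n₀ + b i) := by ring
      rw [h4]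
      exact dvd_add (h3.mul_left _) hpd

end Pool.Agent.X10.SP.Lin
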